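import Mathlib
import Pool.Agent.Y248.FB.Stm
set_option autoImplicit false

/-! # Project FC: Bochner-Riesz means on sets with an `L^2` gain: definitions, statements

All multipliers have radius `1` here. -/

namespace Pool.Agent.Y248.FC

open MeasureTheory Set Metric Complex Filter
open scoped ENNReal RealInnerProductSpace Topology FourierTransform
open Pool.Agent.H789R2.FR (E sg T)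
open Pool.Agent.H438R2.RZ (Bump)
open Pool.Agent.Y248.BA (mu Kr Tp)
open Pool.Agent.Y248.FB

/-- bounded measurable functions with bounded support -/
def BB {n : ℕ} (g : E n → ℂ) : Prop :=
  Measurable g ∧ (∃ M : ℝ, ∀ x, ‖g x‖ ≤ M) ∧ ∃ ρ : ℝ, ∀ x, x ∉ closedBall 0 ρ → g x = 0

/-- Fourier transform of the measure `g μ` -/
noncomputable def Fm {n : ℕ} (g : E n → ℂ) (μ : Measure (E n)) (ξ : E n) : ℂ :=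
  ∫ x : E n, g x * cexp (((2 * Real.pi * ⟪x, ξ⟫ : ℝ) : ℂ) * I) ∂μ

/-- gain `γ` in `L²` on the shells of thickness `1/ρ`, `ρ ≥ 1`, about the unit sphere -/
def Gain {n : ℕ} (γ K : ℝ) (μ : Measure (E n)) : Prop := ∀ ρ : ℝ, 1 ≤ ρ → ∀ g : E n → ℂ, BB g →
  ∫⁻ ξ in {ξ : E n | |‖ξ‖ ^ 2 - 1| ≤ 1 / ρ}, ‖Fm g μ ξ‖ₑ ^ (2 : ℝ) ≤
    ENNReal.ofReal (K * ρ ^ (-γ)) * ∫⁻ x, ‖g x‖ₑ ^ (2 : ℝ) ∂μ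

/-- the exponent in the energy estimate -/
noncomputable def th (n : ℕ) (γ p : ℝ) : ℝ := min 1 (γ + ((n : ℝ) + 1 - 2 * γ) * (1 / 2 - 1 / p))

/-- `SP`: the energy, splitting the kernel at scale `l` -/
def S_SP (n : ℕ) : Prop := ∀ ψ : ℝ → ℝ, Bump ψ → ∀ γ K : ℝ, 0 ≤ γ → γ ≤ 1 → 0 ≤ K →
  ∃ C : ℝ, 0 < C ∧ ∀ μ : Measure (E n), Dim n μ → Gain γ K μ → ∀ A : ℝ, 4 ≤ A →
  ∀ l : ℝ, 3 ≤ l → l ≤ A → ∀ g : E n → ℂ, BB g →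
    ∫⁻ ξ, ‖Hd ψ A (fun _ => 1) g μ ξ‖ₑ ^ (2 : ℝ) ≤
      ENNReal.ofReal (C / A * l ^ (-kap n)) * (∫⁻ x, ‖g x‖ₑ ∂μ) ^ (2 : ℝ) +
      ENNReal.ofReal (C / A * l ^ (1 - γ)) * ∫⁻ x, ‖g x‖ₑ ^ (2 : ℝ) ∂μ

/-- `GE`: the energy estimate for measures with gain -/
def S_GE (n : ℕ) : Prop := ∀ ψ : ℝ → ℝ, Bump ψ → ∀ γ K p ε : ℝ, 0 ≤ γ → γ ≤ 1 → 0 ≤ K → 2 ≤ p →
  0 < ε → ∃ C : ℝ, 0 < C ∧ ∀ μ : Measure (E n), Dim n μ → Gain γ K μ → ∀ A : ℝ, 4 ≤ A →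
  ∀ g : E n → ℂ, BB g →
    ∫⁻ ξ, ‖Hd ψ A (fun _ => 1) g μ ξ‖ₑ ^ (2 : ℝ) ≤
      ENNReal.ofReal (C * A ^ (-th n γ p + ε)) *
        (∫⁻ x, ‖g x‖ₑ ^ (p / (p - 1)) ∂μ) ^ (2 * (p - 1) / p)

/-- `GL2`: from `L^2(dx)` to `L^p(μ)`, `p ≥ 2` -/
def S_GL2 (n : ℕ) : Prop := ∀ ψ : ℝ → ℝ, Bump ψ → ∀ γ K p ε : ℝ, 0 ≤ γ → γ ≤ 1 → 0 ≤ K → 2 ≤ p →
  0 < ε → ∃ C : ℝ, 0 < C ∧ ∀ μ : Measure (E n), Dim n μ → Gain γ K μ → ∀ A : ℝ, 4 ≤ A →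
  ∀ f : E n → ℂ, Measurable f → Integrable f → MemLp f 2 →
    ∫⁻ x, ‖Tp ψ A 1 f x‖ₑ ^ p ∂μ ≤
      ENNReal.ofReal ((C * A ^ (-th n γ p + ε)) ^ (p / 2)) * (∫⁻ x, ‖f x‖ₑ ^ (2 : ℝ)) ^ (p / 2)

/-- `GN`: from `L^p(dx)` to `L^p(μ)`, `p ≥ 2`, on balls -/
def S_GN (n : ℕ) : Prop := ∀ ψ : ℝ → ℝ, Bump ψ → ∀ γ K p ε : ℝ, 0 ≤ γ → γ ≤ 1 → 0 ≤ K → 2 ≤ p →
  0 < ε → ∃ C : ℝ, 0 < C ∧ ∀ μ : Measure (E n), Dim n μ → Gain γ K μ → ∀ A : ℝ, 4 ≤ A →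
  ∀ (u : E n) (ρ : ℝ), 1 ≤ ρ → ∀ f : E n → ℂ, Measurable f →
  (∀ x, x ∉ closedBall u (2 * ρ) → f x = 0) → ∫⁻ x, ‖f x‖ₑ ^ p ≠ ∞ →
    ∫⁻ x in closedBall u ρ, ‖Tp ψ A 1 f x‖ₑ ^ p ∂μ ≤
      ENNReal.ofReal (C * A ^ ((-th n γ p + ε) * (p / 2)) * ρ ^ (n * (p / 2 - 1))) *
        ∫⁻ x, ‖f x‖ₑ ^ p

/-- `GS`: from `L^p(dx)` to `L^p(μ)`, `1 < p < 2`, on balls -/
def S_GS (n : ℕ) : Prop := ∀ ψ : ℝ → ℝ, Bump ψ → ∀ γ K p ε : ℝ, 0 ≤ γ → γ ≤ 1 → 0 ≤ K → 1 < p →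
  p < 2 → 0 < ε → ∃ C : ℝ, 0 < C ∧ ∀ μ : Measure (E n), Dim n μ → Gain γ K μ → ∀ A : ℝ, 4 ≤ A →
  ∀ (u : E n) (ρ : ℝ), 1 ≤ ρ → ∀ f : E n → ℂ, Measurable f →
  (∀ x, x ∉ closedBall u (2 * ρ) → f x = 0) → ∫⁻ x, ‖f x‖ₑ ^ p ≠ ∞ →
    ∫⁻ x in closedBall u ρ, ‖Tp ψ A 1 f x‖ₑ ^ p ∂μ ≤
      ENNReal.ofReal (C * A ^ ((-γ - th n 0 (p / (p - 1)) + ε) * (p / 2)) *
        ρ ^ (n * (1 - p / 2))) * ∫⁻ x, ‖f x‖ₑ ^ p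

/-- the pieces, for measures with gain -/
def PG (n : ℕ) (γ K p σ : ℝ) : Prop := ∀ ψ : ℝ → ℝ, Bump ψ →
  ∃ C : ℝ, 0 < C ∧ ∀ μ : Measure (E n), Dim n μ → Gain γ K μ → ∀ A : ℝ, 1 ≤ A →
  ∀ f : E n → ℂ, Measurable f → ∫⁻ x, ‖f x‖ₑ ^ p ≠ ∞ →
    ∫⁻ x, ‖Tp ψ A 1 f x‖ₑ ^ p ∂μ ≤ ENNReal.ofReal (C * A ^ (p * σ)) * ∫⁻ x, ‖f x‖ₑ ^ p

/-- `L²` estimate on all annuli of area about `1/ρ` contained in the ball of radius about one -/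
def Ann {k : ℕ} (γ K : ℝ) (ν : Measure (E k)) : Prop := ∀ r₀ : ℝ, r₀ ≤ 1 → ∀ ρ : ℝ, 1 ≤ ρ →
  ∀ h : E k → ℂ, BB h →
    ∫⁻ η in {η : E k | |‖η‖ ^ 2 - r₀| ≤ 1 / ρ}, ‖Fm h ν η‖ₑ ^ (2 : ℝ) ≤
      ENNReal.ofReal (K * ρ ^ (-γ)) * ∫⁻ t, ‖h t‖ₑ ^ (2 : ℝ) ∂ν

/-- `AN`: annuli -/
def S_AN (k : ℕ) : Prop := ∀ β γ K₀ : ℝ, (k : ℝ) / 2 ≤ β → β ≤ ((k : ℝ) + 1) / 2 →
  γ < ((k : ℝ) + 1) / 2 - β → 0 ≤ K₀ → ∃ K : ℝ, 0 < K ∧ ∀ ν : Measure (E k),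
  (∀ (t : E k) (r : ℝ), 1 ≤ r → ν (closedBall t r) ≤ ENNReal.ofReal (K₀ * r ^ β)) → Ann γ K ν

/-- cylinder measures `dx' × ν` -/
noncomputable def cyl (m : ℕ) {k : ℕ} (ν : Measure (E k)) : Measure (E (m + k)) :=
  Measure.map (EuclideanSpace.finAddEquivProd (𝕜 := ℝ) (n := m) (m := k)).symm
    ((volume : Measure (E m)).prod ν)

/-- the projection to the last `k` coordinates -/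
noncomputable def pr (m : ℕ) {k : ℕ} (x : E (m + k)) : E k :=
  (EuclideanSpace.finAddEquivProd (𝕜 := ℝ) (n := m) (m := k) x).2

/-- `SL`: slicing -/
def S_SL (m k : ℕ) : Prop := ∀ (γ K : ℝ) (ν : Measure (E k)),
  (∀ (t : E k) (r : ℝ), ν (closedBall t r) < ∞) → Ann γ K ν → Gain γ K (cyl m ν)

/-- `CY`: size of balls for cylinder measures; restrictions of the volume -/
def S_CY (m k : ℕ) : Prop :=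
  (∃ C : ℝ, 0 < C ∧ ∀ (β K₀ : ℝ), 0 ≤ β → β ≤ k → 0 ≤ K₀ → ∀ ν : Measure (E k),
    (∀ (t : E k) (r : ℝ), 1 ≤ r → ν (closedBall t r) ≤ ENNReal.ofReal (K₀ * r ^ β)) →
    ∀ (x : E (m + k)) (r : ℝ), 1 ≤ r →
      cyl m ν (closedBall x r) ≤ ENNReal.ofReal (C * K₀ * r ^ ((m : ℝ) + β))) ∧
  ∀ F : Set (E k), MeasurableSet F →
    (volume : Measure (E (m + k))).restrict {x | pr m x ∈ F} =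
      cyl m ((volume : Measure (E k)).restrict F)

end Pool.Agent.Y248.FC
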