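import Mathlib
import Pool.Agent.Y248.FC.Stm
import Pool.Agent.Y248.FB.Asm
set_option autoImplicit false

/-! # Project FC: assembly of the bound for the pieces -/

namespace Pool.Agent.Y248.FC

open MeasureTheory Set Metric Complex Filter
open scoped ENNReal RealInnerProductSpace Topology FourierTransform
open Pool.Agent.H789R2.FR (E sg T)
open Pool.Agent.H438R2.RZ (Bump)
open Pool.Agent.Y248.BA (mu Kr Tp)
open Pool.Agent.Y248.FB

theorem radii_one {n : ℕ} : Radii (fun _ : E n => (1 : ℝ)) :=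
  ⟨measurable_const, fun _ => ⟨le_rfl, by norm_num⟩⟩

/-- from local estimates for `A ≥ 4` to all `A ≥ 1` -/
theorem pg_of_local (n : ℕ) (hGL : S_GL n) (hCR : S_CR n) (γ K p σ : ℝ)
    (hp : 1 ≤ p) (ε : ℝ) (hε : 0 < ε)
    (H : ∀ ψ : ℝ → ℝ, Bump ψ → ∃ C : ℝ, 0 < C ∧ ∀ μ : Measure (E n), Dim n μ → Gain γ K μ →
      ∀ A : ℝ, 4 ≤ A → ∀ (u : E n) (f : E n → ℂ), Measurable f →
      (∀ x, x ∉ closedBall u (2 * A ^ (1 + ε)) → f x = 0) → ∫⁻ x, ‖f x‖ₑ ^ p ≠ ∞ →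
      ∫⁻ x in closedBall u (A ^ (1 + ε)), ‖Tp ψ A 1 f x‖ₑ ^ p ∂μ ≤
        ENNReal.ofReal (C * A ^ (p * σ)) * ∫⁻ x, ‖f x‖ₑ ^ p) : PG n γ K p σ := by
  intro ψ hψ
  obtain ⟨C1, hC1, h1⟩ := H ψ hψ
  obtain ⟨C2, hC2, h2⟩ := hGL ψ hψ n p ε |p * σ| (Nat.cast_nonneg n) le_rfl hp hε
  obtain ⟨C3, hC3, h3⟩ := hCR ψ hψ n p (Nat.cast_nonneg n) le_rfl hp
  set c : ℝ := min 1 ((4 : ℝ) ^ (p * σ)) with hc
  have hc0 : 0 < c := lt_min one_pos (Real.rpow_pos_of_pos (by norm_num) _)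
  refine ⟨2 ^ (p - 1) * (2 ^ n * C1 + C2) + C3 / c, by positivity,
    fun μ hμ hG A hA f hf hfp => ?_⟩
  have hA0 : 0 < A := by linarith
  have hAσ : 0 < A ^ (p * σ) := Real.rpow_pos_of_pos hA0 _
  rcases le_total A 4 with hA4 | hA4
  · refine (h3 μ hμ A hA hA4 (fun _ => 1) radii_one f hf hfp).trans ?_
    refine mul_le_mul' (ENNReal.ofReal_le_ofReal ?_) le_rfl
    have h4 : c ≤ A ^ (p * σ) := by
      rcases le_total 0 (p * σ) with h | h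
      · exact (min_le_left _ _).trans (Real.one_le_rpow hA h)
      · exact (min_le_right _ _).trans (Real.rpow_le_rpow_of_nonpos hA0 hA4 h)
    have h5 : C3 ≤ C3 / c * A ^ (p * σ) := by
      rw [div_mul_eq_mul_div, le_div_iff₀ hc0]
      exact mul_le_mul_of_nonneg_left h4 hC3.le
    refine h5.trans (mul_le_mul_of_nonneg_right ?_ hAσ.le)
    have : 0 ≤ (2 : ℝ) ^ (p - 1) * (2 ^ n * C1 + C2) := by positivity
    linarith
  · refine (h2 μ hμ A hA (fun _ => 1) radii_one (C1 * A ^ (p * σ)) (by positivity)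
      (fun u g hg hg2 hg3 => h1 μ hμ hG A hA4 u g hg hg2 hg3) f hf hfp).trans ?_
    refine mul_le_mul' (ENNReal.ofReal_le_ofReal ?_) le_rfl
    have h6 : A ^ (-|p * σ|) ≤ A ^ (p * σ) :=
      Real.rpow_le_rpow_of_exponent_le hA (neg_abs_le _)
    calc 2 ^ (p - 1) * (2 ^ n * (C1 * A ^ (p * σ)) + C2 * A ^ (-|p * σ|))
        ≤ 2 ^ (p - 1) * (2 ^ n * (C1 * A ^ (p * σ)) + C2 * A ^ (p * σ)) := by gcongr
      _ = (2 ^ (p - 1) * (2 ^ n * C1 + C2)) * A ^ (p * σ) := by ring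
      _ ≤ _ := by
        refine mul_le_mul_of_nonneg_right ?_ hAσ.le
        have : 0 ≤ C3 / c := by positivity
        linarith

theorem pg_big (n : ℕ) (hN : S_GN n) (hGL : S_GL n) (hCR : S_CR n) (γ K p σ : ℝ)
    (hγ0 : 0 ≤ γ) (hγ1 : γ ≤ 1) (hK : 0 ≤ K) (hp : 2 ≤ p)
    (h1 : (((n : ℝ) - 1 + 2 * γ) * (1 / 2 - 1 / p) - γ) / 2 < σ)
    (h2 : (n : ℝ) * (1 / 2 - 1 / p) - 1 / 2 < σ) :
    PG n γ K p σ := by
  have hp0 : 0 < p := by linarith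
  set m : ℝ := th n γ p with hm
  obtain ⟨ε, hε, he⟩ := exists_eps (g := fun ε => (-m + ε) * (p / 2) + (1 + ε) *
    (n * (p / 2 - 1))) (by fun_prop) (a := p * σ) (by
      simp only [add_zero, one_mul]
      have : -m * (p / 2) + n * (p / 2 - 1) =
        p * (-m / 2 + n * (1 / 2 - 1 / p)) := by field_simp
      rw [this]
      refine mul_lt_mul_of_pos_left ?_ hp0
      rcases min_cases (1 : ℝ) (γ + ((n : ℝ) + 1 - 2 * γ) * (1 / 2 - 1 / p)) with ⟨h, _⟩ | ⟨h, _⟩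
      · rw [hm, th, h]; linarith
      · rw [hm, th, h]
        have e1 : -(γ + ((n : ℝ) + 1 - 2 * γ) * (1 / 2 - 1 / p)) / 2 + n * (1 / 2 - 1 / p) =
          (((n : ℝ) - 1 + 2 * γ) * (1 / 2 - 1 / p) - γ) / 2 := by ring
        rw [e1]; exact h1)
  refine pg_of_local n hGL hCR γ K p σ (by linarith) ε hε fun ψ hψ => ?_
  obtain ⟨C, hC, hb⟩ := hN ψ hψ γ K p ε hγ0 hγ1 hK hp hε
  refine ⟨C, hC, fun μ hμ hG A hA u f hf hf2 hfp => ?_⟩
  have hA0 : 0 < A := by linarith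
  have hA1 : 1 ≤ A := by linarith
  refine (hb μ hμ hG A hA u (A ^ (1 + ε)) (Real.one_le_rpow hA1 (by linarith)) f hf hf2 hfp).trans ?_
  refine mul_le_mul' (ENNReal.ofReal_le_ofReal ?_) le_rfl
  rw [mul_assoc, ← Real.rpow_mul hA0.le, ← Real.rpow_add hA0]
  refine mul_le_mul_of_nonneg_left ?_ hC.le
  exact Real.rpow_le_rpow_of_exponent_le hA1 he

theorem pg_small (n : ℕ) (hN : S_GS n) (hGL : S_GL n) (hCR : S_CR n) (γ K p σ : ℝ)
    (hγ0 : 0 ≤ γ) (hγ1 : γ ≤ 1) (hK : 0 ≤ K) (hp1 : 1 < p) (hp2 : p < 2)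
    (hp3 : ((n : ℝ) + 1) * (1 / p - 1 / 2) ≤ 1)
    (h1 : (((n : ℝ) - 1) * (1 / p - 1 / 2) - γ) / 2 < σ) : PG n γ K p σ := by
  have hp0 : 0 < p := by linarith
  have hm : th n 0 (p / (p - 1)) = ((n : ℝ) + 1) * (1 / p - 1 / 2) := by
    have e0 : (1 : ℝ) / 2 - 1 / (p / (p - 1)) = 1 / p - 1 / 2 := by
      have : p - 1 ≠ 0 := by linarith
      field_simp
      ring
    rw [th, e0, min_eq_right] <;> [ring; (simpa using hp3)]
  set m : ℝ := th n 0 (p / (p - 1)) with hm'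
  obtain ⟨ε, hε, he⟩ := exists_eps (g := fun ε => (-γ - m + ε) * (p / 2) + (1 + ε) *
    (n * (1 - p / 2))) (by fun_prop) (a := p * σ) (by
      simp only [add_zero, one_mul]
      have : (-γ - m) * (p / 2) + n * (1 - p / 2) =
        p * ((((n : ℝ) - 1) * (1 / p - 1 / 2) - γ) / 2) := by
          rw [hm]
          field_simp
          ring
      rw [this]
      exact mul_lt_mul_of_pos_left h1 hp0)
  refine pg_of_local n hGL hCR γ K p σ (by linarith) ε hε fun ψ hψ => ?_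
  obtain ⟨C, hC, hb⟩ := hN ψ hψ γ K p ε hγ0 hγ1 hK hp1 hp2 hε
  refine ⟨C, hC, fun μ hμ hG A hA u f hf hf2 hfp => ?_⟩
  have hA0 : 0 < A := by linarith
  have hA1 : 1 ≤ A := by linarith
  refine (hb μ hμ hG A hA u (A ^ (1 + ε)) (Real.one_le_rpow hA1 (by linarith)) f hf hf2 hfp).trans ?_
  refine mul_le_mul' (ENNReal.ofReal_le_ofReal ?_) le_rfl
  rw [mul_assoc, ← Real.rpow_mul hA0.le, ← Real.rpow_add hA0]
  refine mul_le_mul_of_nonneg_left ?_ hC.le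
  exact Real.rpow_le_rpow_of_exponent_le hA1 he

end Pool.Agent.Y248.FC
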