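import Mathlib
import Pool.Agent.Y248.FC.Asm
import Pool.Agent.Y624.FB.SU
import Pool.Agent.Y356.FB.DU
set_option autoImplicit false

/-! # Project FC: summation and duality for a single measure (adaptations of the files of
helper624 and helper356) -/

namespace Pool.Agent.Y248.FC

open MeasureTheory Set Metric Complex Filter
open scoped ENNReal RealInnerProductSpace Topology FourierTransform
open Pool.Agent.H789R2.FR (E sg T)
open Pool.Agent.H438R2.RZ (Bump)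
open Pool.Agent.Y248.BA (mu Kr Tp)
open Pool.Agent.Y248.FB
open Pool.Agent.Y624.FB

/-- the sum of the geometric series -/
noncomputable def Sg (a : ℝ) : ℝ := ∑' j : ℕ, (2 : ℝ) ^ (-(a * j))

theorem su_core {n : ℕ} {p δ σ C : ℝ} (hp : 1 ≤ p) (hσ : σ < δ) (hC : 0 < C)
    {ψ : ℝ → ℝ} (hψ : Bump ψ)
    (hsum : ∀ f : SchwartzMap (E n) ℂ, ∀ R : ℝ, 1 ≤ R → R ≤ 2 → ∀ x : E n,
      HasSum (fun j : ℕ => (((2 : ℝ) ^ (-(δ * j)) : ℝ) : ℂ) * Tp ψ (2 ^ j) R (fun y => f y) x)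
      (Sm δ R (fun y => f y) x))
    {μ : Measure (E n)} {R : E n → ℝ} (hR : Radii R) (f : SchwartzMap (E n) ℂ)
    (hb : ∀ A : ℝ, 1 ≤ A → ∫⁻ x, ‖Tp ψ A (R x) (fun y => f y) x‖ₑ ^ p ∂μ ≤
      ENNReal.ofReal (C * A ^ (p * σ)) * ∫⁻ x, ‖f x‖ₑ ^ p) :
    ∫⁻ x, ‖Sm δ (R x) (fun y => f y) x‖ₑ ^ p ∂μ ≤
      ENNReal.ofReal (C * Sg (δ - σ) ^ p) * ∫⁻ x, ‖f x‖ₑ ^ p := by
  have hp0 : 0 < p := by linarith
  have hgeo := geo_s (δ - σ) (by linarith)
  set S : ℝ := Sg (δ - σ) with hS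
  unfold Sg at hS
  have hS0 : 0 < S := by
    have h1 : (2 : ℝ) ^ (-((δ - σ) * ((0 : ℕ) : ℝ))) ≤ S :=
      hgeo.le_tsum 0 fun j _ => Real.rpow_nonneg (by norm_num) _
    have h2 : (2 : ℝ) ^ (-((δ - σ) * ((0 : ℕ) : ℝ))) = 1 := by simp
    linarith
  have hA1 : ∀ j : ℕ, (1 : ℝ) ≤ 2 ^ j := fun j => one_le_pow₀ (by norm_num)
  have h2n : ∀ j : ℕ, 0 ≤ (2 : ℝ) ^ (-(δ * j)) := fun j => Real.rpow_nonneg (by norm_num) _
  have h0 : ENNReal.ofReal p ≠ 0 := by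
    rw [Ne, ENNReal.ofReal_eq_zero]; linarith
  have hp1' : 1 ≤ ENNReal.ofReal p := by
    rw [← ENNReal.ofReal_one]; exact ENNReal.ofReal_le_ofReal hp
  have hfm : Measurable fun y => f y := f.continuous.measurable
  have hfp : ∫⁻ x, ‖f x‖ₑ ^ p ≠ ∞ := by
    have h1 := lintegral_rpow_enorm_lt_top_of_eLpNorm_lt_top h0 ENNReal.ofReal_ne_top
      (f.memLp (ENNReal.ofReal p) (volume : Measure (E n))).2
    rw [ENNReal.toReal_ofReal hp0.le] at h1
    exact h1.ne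
  set Q : ℕ → E n → ℂ := fun j x => Tp ψ (2 ^ j) (R x) (fun y => f y) x with hQ
  have hTm : ∀ j : ℕ, Measurable (Q j) := fun j => Tp_rad_meas hψ (by positivity) hR f
  have hN : ∀ g : E n → ℂ, eLpNorm g (ENNReal.ofReal p) μ = (∫⁻ x, ‖g x‖ₑ ^ p ∂μ) ^ (1 / p) :=
    fun g => by
      rw [eLpNorm_eq_lintegral_rpow_enorm_toReal h0 ENNReal.ofReal_ne_top,
        ENNReal.toReal_ofReal hp0.le]
  set B : ℝ≥0∞ := ENNReal.ofReal (C ^ (1 / p)) * (∫⁻ x, ‖f x‖ₑ ^ p) ^ (1 / p) with hB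
  have hab : ∀ j, eLpNorm (Q j) (ENNReal.ofReal p) μ ≤ ENNReal.ofReal ((2 : ℝ) ^ (σ * j)) * B := by
    intro j
    rw [hN]
    refine (ENNReal.rpow_le_rpow (hb (2 ^ j) (hA1 j))
      (by positivity)).trans (le_of_eq ?_)
    rw [ENNReal.mul_rpow_of_nonneg _ _ (by positivity),
      ENNReal.ofReal_rpow_of_nonneg (by positivity) (by positivity),
      Real.mul_rpow hC.le (by positivity), ← Real.rpow_mul (by positivity), ← Real.rpow_natCast 2 j,
      ← Real.rpow_mul (by norm_num), show (j : ℝ) * (p * σ * (1 / p)) = σ * j by field_simp,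
      ENNReal.ofReal_mul (by positivity), hB]
    ring
  set P : ℕ → E n → ℂ := fun J x => ∑ j ∈ Finset.range J,
    (((2 : ℝ) ^ (-(δ * j)) : ℝ) : ℂ) * Q j x with hP
  have hPm : ∀ J, AEStronglyMeasurable (P J) μ := by
    intro J
    have : Measurable (P J) := by
      rw [hP]
      exact Finset.measurable_sum _ fun j _ => measurable_const.mul (hTm j)
    exact this.aestronglyMeasurable
  have hPlim : ∀ x, Tendsto (fun J => P J x) atTop (𝓝 (Sm δ (R x) (fun y => f y) x)) := fun x =>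
    (hsum f (R x) (hR.2 x).1 (hR.2 x).2 x).tendsto_sum_nat
  have hlim := Lp.eLpNorm_lim_le_liminf_eLpNorm (p := ENNReal.ofReal p) hPm _
    (Filter.Eventually.of_forall hPlim)
  have hfin : eLpNorm (fun x => Sm δ (R x) (fun y => f y) x) (ENNReal.ofReal p) μ ≤
      B * ENNReal.ofReal S := by
    refine hlim.trans ?_
    refine liminf_le_of_le (by isBoundedDefault) ?_
    intro b hb'
    obtain ⟨J', hJ'⟩ := hb'.exists
    refine hJ'.trans ?_
    calc eLpNorm (P J') (ENNReal.ofReal p) μ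
        ≤ ∑ j ∈ Finset.range J', eLpNorm (fun x => (((2 : ℝ) ^ (-(δ * j)) : ℝ) : ℂ) *
            Q j x) (ENNReal.ofReal p) μ := by
          have h := eLpNorm_sum_le (μ := μ) (p := ENNReal.ofReal p)
            (f := fun (j : ℕ) (x : E n) => (((2 : ℝ) ^ (-(δ * j)) : ℝ) : ℂ) *
            Q j x) (s := Finset.range J')
            (fun j _ => (measurable_const.mul (hTm j)).aestronglyMeasurable) hp1'
          have e2 : (∑ j ∈ Finset.range J', fun (x : E n) => (((2 : ℝ) ^ (-(δ * j)) : ℝ) : ℂ) *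
            Q j x) = P J' := by
            funext x; rw [Finset.sum_apply]
          rw [e2] at h
          exact h
      _ ≤ ∑ j ∈ Finset.range J', B * ENNReal.ofReal ((2 : ℝ) ^ (-((δ - σ) * j))) := by
          refine Finset.sum_le_sum fun j _ => ?_
          have h := eLpNorm_const_smul (((2 : ℝ) ^ (-(δ * j)) : ℝ) : ℂ)
            (Q j) (ENNReal.ofReal p) μ
          have e3 : ‖(((2 : ℝ) ^ (-(δ * j)) : ℝ) : ℂ)‖ₑ = ENNReal.ofReal ((2 : ℝ) ^ (-(δ * j))) := by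
            rw [← ofReal_norm, Complex.norm_real, Real.norm_of_nonneg (h2n j)]
          rw [e3] at h
          refine (le_of_eq h).trans ((mul_le_mul' le_rfl (hab j)).trans (le_of_eq ?_))
          rw [← mul_assoc, ← ENNReal.ofReal_mul (h2n j), mul_comm B]
          congr 2
          rw [← Real.rpow_add (by norm_num)]; congr 1; ring
      _ = B * ∑ j ∈ Finset.range J', ENNReal.ofReal ((2 : ℝ) ^ (-((δ - σ) * j))) := by
          rw [Finset.mul_sum]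
      _ ≤ B * ENNReal.ofReal S := by
          gcongr
          rw [hS, ENNReal.ofReal_tsum_of_nonneg (fun j => Real.rpow_nonneg (by norm_num) _) hgeo]
          exact ENNReal.sum_le_tsum _
  rw [hN] at hfin
  have h5 := ENNReal.rpow_le_rpow hfin hp0.le
  rw [← ENNReal.rpow_mul, one_div, inv_mul_cancel₀ hp0.ne', ENNReal.rpow_one] at h5
  refine h5.trans (le_of_eq ?_)
  rw [hB, ENNReal.mul_rpow_of_nonneg _ _ hp0.le, ENNReal.mul_rpow_of_nonneg _ _ hp0.le,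
    ← ENNReal.rpow_mul, one_div, inv_mul_cancel₀ hp0.ne', ENNReal.rpow_one,
    ENNReal.ofReal_rpow_of_nonneg (by positivity) hp0.le, ENNReal.ofReal_rpow_of_nonneg hS0.le hp0.le,
    ← Real.rpow_mul hC.le, inv_mul_cancel₀ hp0.ne', Real.rpow_one, ENNReal.ofReal_mul hC.le]
  ring


theorem du_core {n : ℕ} {p q δ C : ℝ} (hp : 1 < p) (hpq : 1 / p + 1 / q = 1) (hδ : 0 ≤ δ)
    (hC : 0 < C) {G : Set (E n)} (hG : MeasurableSet G) (f : SchwartzMap (E n) ℂ)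
    (hf : ∀ x, x ∉ G → f x = 0)
    (hMX : ∀ h : SchwartzMap (E n) ℂ, ∫⁻ x in G, ‖Sm δ 1 (fun y => h y) x‖ₑ ^ p ≤
      ENNReal.ofReal C * ∫⁻ x, ‖h x‖ₑ ^ p) :
    ∫⁻ x, ‖Sm δ 1 (fun y => f y) x‖ₑ ^ q ≤ ENNReal.ofReal (C ^ (q / p)) * ∫⁻ x, ‖f x‖ₑ ^ q := by
  have hpq' : p.HolderConjugate q := by
    rw [Real.holderConjugate_iff]
    exact ⟨hp, by simpa [one_div] using hpq⟩
  have hq : 0 < q := hpq'.symm.pos
  set F : E n → ℂ := Sm δ 1 (fun y => f y) with hF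
  obtain ⟨MF, -, hFb⟩ := Pool.Agent.Y356.FB.Sm_bdd hδ f
  set B : ℝ≥0∞ := (∫⁻ x, ‖f x‖ₑ ^ q) ^ (1 / q) * (ENNReal.ofReal C) ^ (1 / p) with hB
  have H : ∀ h : SchwartzMap (E n) ℂ,
      ‖∫ x, F x * h x‖ₑ ≤ B * (∫⁻ x, ‖h x‖ₑ ^ p) ^ (1 / p) := by
    intro h
    refine Pool.Agent.Y356.FB.pair_le hpq'.symm hδ hG f h hf ?_
    exact hMX h
  have hfi : ∫⁻ x, ‖f x‖ₑ ^ q < ∞ := by
    have h1 := (f.memLp (ENNReal.ofReal q) volume).2
    have h2 := lintegral_rpow_enorm_lt_top_of_eLpNorm_lt_top (p := ENNReal.ofReal q)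
      (by simpa using hq) ENNReal.ofReal_ne_top h1
    rwa [ENNReal.toReal_ofReal hq.le] at h2
  have hBt : B ≠ ∞ := by
    rw [hB]
    exact ENNReal.mul_ne_top (ENNReal.rpow_ne_top_of_nonneg (by positivity) hfi.ne)
      (ENNReal.rpow_ne_top_of_nonneg (one_div_nonneg.2 hpq'.pos.le) ENNReal.ofReal_ne_top)
  have hball := fun N : ℝ => Pool.Agent.Y356.FB.ball_le (Pool.Agent.Y356.FB.Sm_cont hδ f) hFb
    hpq'.symm hBt H N
  have hBq : B ^ q = ENNReal.ofReal (C ^ (q / p)) * ∫⁻ x, ‖f x‖ₑ ^ q := by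
    rw [hB, ENNReal.mul_rpow_of_nonneg _ _ hq.le, ← ENNReal.rpow_mul, ← ENNReal.rpow_mul,
      one_div_mul_cancel hq.ne', ENNReal.rpow_one, mul_comm,
      ← ENNReal.ofReal_rpow_of_pos hC]
    congr 2
    ring
  rw [← hBq]
  have hU : (⋃ k : ℕ, closedBall (0 : E n) (k : ℝ)) = univ := by
    rw [iUnion_closedBall_nat]
  rw [← setLIntegral_univ, ← hU, setLIntegral_iUnion_of_directed]
  · exact iSup_le fun k => hball k
  · intro a b
    exact ⟨max a b, closedBall_subset_closedBall (by exact_mod_cast le_max_left a b),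
      closedBall_subset_closedBall (by exact_mod_cast le_max_right a b)⟩

/-- sizes of balls with a constant -/
def DimC {n : ℕ} (α D : ℝ) (μ : Measure (E n)) : Prop :=
  ∀ (x : E n) (r : ℝ), 1 ≤ r → μ (closedBall x r) ≤ ENNReal.ofReal (D * r ^ α)

theorem Dim.of_smul {n : ℕ} {α D : ℝ} (hD : 0 < D) {μ : Measure (E n)} (h : DimC α D μ) :
    Dim α (ENNReal.ofReal D⁻¹ • μ) := by
  intro x r hr
  rw [Measure.smul_apply, smul_eq_mul]
  refine (mul_le_mul' le_rfl (h x r hr)).trans (le_of_eq ?_)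
  rw [← ENNReal.ofReal_mul (by positivity), ← mul_assoc, inv_mul_cancel₀ hD.ne', one_mul]

theorem Gain.smul {n : ℕ} {γ K : ℝ} {μ : Measure (E n)} (h : Gain γ K μ) {c : ℝ} (hc : 0 ≤ c)
    (hK : 0 ≤ K) : Gain γ (c * K) (ENNReal.ofReal c • μ) := by
  intro ρ hρ g hg
  have h1 : ∀ ξ, Fm g (ENNReal.ofReal c • μ) ξ = (c : ℂ) * Fm g μ ξ := by
    intro ξ
    unfold Fm
    rw [integral_smul_measure, ENNReal.toReal_ofReal hc, Complex.real_smul]
  have h2 : ∀ ξ, ‖Fm g (ENNReal.ofReal c • μ) ξ‖ₑ ^ (2 : ℝ) =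
      ENNReal.ofReal (c ^ (2 : ℝ)) * ‖Fm g μ ξ‖ₑ ^ (2 : ℝ) := by
    intro ξ
    rw [h1, enorm_mul, ENNReal.mul_rpow_of_nonneg _ _ (by norm_num), ← ofReal_norm (c : ℂ),
      Complex.norm_real, Real.norm_of_nonneg hc, ENNReal.ofReal_rpow_of_nonneg hc (by norm_num)]
  simp only [h2]
  rw [lintegral_const_mul' _ _ ENNReal.ofReal_ne_top, lintegral_smul_measure]
  refine (mul_le_mul' le_rfl (h ρ hρ g hg)).trans (le_of_eq ?_)
  rw [smul_eq_mul, ← mul_assoc, ← mul_assoc, ← ENNReal.ofReal_mul (by positivity),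
    ← ENNReal.ofReal_mul (by positivity)]
  congr 2
  rw [Real.rpow_two]
  ring

theorem ug (n : ℕ) (hn : 2 ≤ n) (γ K p δ σ D : ℝ) (hK : 0 ≤ K) (hD : 0 < D) (hp : 1 ≤ p)
    (hδ : 0 ≤ δ) (hσ : σ < δ) (hPG : PG n γ (D⁻¹ * K) p σ) :
    ∃ C : ℝ, 0 < C ∧ ∀ μ : Measure (E n), DimC n D μ → Gain γ K μ → ∀ f : SchwartzMap (E n) ℂ,
      ∫⁻ x, ‖Sm δ 1 (fun y => f y) x‖ₑ ^ p ∂μ ≤ ENNReal.ofReal C * ∫⁻ x, ‖f x‖ₑ ^ p := by
  obtain ⟨ψ, hψ, hsum⟩ := t_hs n hn δ hδ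
  obtain ⟨C, hC, hb⟩ := hPG ψ hψ
  have hS : 0 < Sg (δ - σ) := by
    have hgeo := geo_s (δ - σ) (by linarith)
    have h1 : (2 : ℝ) ^ (-((δ - σ) * ((0 : ℕ) : ℝ))) ≤ Sg (δ - σ) :=
      hgeo.le_tsum 0 fun j _ => Real.rpow_nonneg (by norm_num) _
    have h2 : (2 : ℝ) ^ (-((δ - σ) * ((0 : ℕ) : ℝ))) = 1 := by simp
    linarith
  refine ⟨D * (C * Sg (δ - σ) ^ p), by positivity, fun μ hμ hG f => ?_⟩
  have hp0 : 0 < p := by linarith
  have h0 : ENNReal.ofReal p ≠ 0 := by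
    rw [Ne, ENNReal.ofReal_eq_zero]; linarith
  have hfp : ∫⁻ x, ‖f x‖ₑ ^ p ≠ ∞ := by
    have h1 := lintegral_rpow_enorm_lt_top_of_eLpNorm_lt_top h0 ENNReal.ofReal_ne_top
      (f.memLp (ENNReal.ofReal p) (volume : Measure (E n))).2
    rw [ENNReal.toReal_ofReal hp0.le] at h1
    exact h1.ne
  have h1 := su_core hp hσ hC hψ hsum (μ := ENNReal.ofReal D⁻¹ • μ) (R := fun _ => 1) radii_one f
    (fun A hA => hb _ (Dim.of_smul hD hμ) (hG.smul (by positivity) hK) A hA (fun y => f y)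
      f.continuous.measurable hfp)
  rw [lintegral_smul_measure, smul_eq_mul] at h1
  have h2 := mul_le_mul' (le_refl (ENNReal.ofReal D)) h1
  rw [← mul_assoc, ← ENNReal.ofReal_mul hD.le, mul_inv_cancel₀ hD.ne', ENNReal.ofReal_one,
    one_mul, ← mul_assoc, ← ENNReal.ofReal_mul hD.le] at h2
  exact h2

end Pool.Agent.Y248.FC
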