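import Mathlib
import Pool.Agent.Y248.FC.Stm
import Pool.Agent.Y515.FB.L2p
set_option autoImplicit false

/-! # Project FC: from the energy estimate to `L² → L^p(μ)` and `L^p → L^p(μ)` on balls
(adaptation of helper515's file for variable radii) -/

namespace Pool.Agent.Y248.FC

open MeasureTheory Set Metric Complex Filter
open scoped ENNReal RealInnerProductSpace Topology FourierTransform
open Pool.Agent.H789R2.FR (E sg T)
open Pool.Agent.H438R2.RZ (Bump)
open Pool.Agent.Y248.BA (mu Kr Tp gh gh_cont mu_bdd mu_far mu_cont mu_int Tp_eq four_eq four_bdd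
  gh_planch ball_vol loc_norm int_of_loc memLp_two Kr_crude)
open Pool.Agent.Y248.FB
open Pool.Agent.Y515.FB

theorem l2_core {n : ℕ} {ψ : ℝ → ℝ} (hψ : Bump ψ) {A : ℝ} (hA0 : 0 < A) {R : E n → ℝ}
    (hR : Radii R) {p : ℝ} (hp : 2 ≤ p) {μ : Measure (E n)} {u : E n} {ρ : ℝ}
    (hBf : μ (closedBall u ρ) < ∞) {c : ℝ} (hc0 : 0 ≤ c)
    (hE : ∀ g : E n → ℂ, Measurable g → (∃ M : ℝ, ∀ x, ‖g x‖ ≤ M) →
      (∀ x, x ∉ closedBall u ρ → g x = 0) → ∫⁻ ξ, ‖Hd ψ A R g μ ξ‖ₑ ^ (2 : ℝ) ≤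
        ENNReal.ofReal c * (∫⁻ x, ‖g x‖ₑ ^ (p / (p - 1)) ∂μ) ^ (2 * (p - 1) / p))
    {f : E n → ℂ} (hf : Integrable f) (hf2 : MemLp f 2) :
    ∫⁻ x in closedBall u ρ, ‖Tp ψ A (R x) f x‖ₑ ^ p ∂μ ≤
      ENNReal.ofReal (c ^ (p / 2)) * (∫⁻ x, ‖f x‖ₑ ^ (2 : ℝ)) ^ (p / 2) := by
  have hp0 : 0 < p := by linarith
  have hp1 : 0 < p - 1 := by linarith
  set B := closedBall u ρ with hB
  have hBm : MeasurableSet B := isClosed_closedBall.measurableSet
  have : IsFiniteMeasure (μ.restrict B) := ⟨by rw [Measure.restrict_apply_univ]; exact hBf⟩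
  obtain ⟨K, hK, hKb⟩ := Ff_bdd hψ hA0 hR hf
  have hFm := Ff_meas hψ hA0 hR hf
  change ∫⁻ x in B, ‖Ff ψ A R f x‖ₑ ^ p ∂μ ≤ _
  set F := Ff ψ A R f with hF
  set g := gt F B p with hg
  have hgm : Measurable g := gt_meas hFm hBm p
  have hgb : ∀ x, ‖g x‖ ≤ K ^ (p - 1) := by
    intro x
    rw [hg, gt_norm F B hp]
    by_cases hx : x ∈ B
    · rw [indicator_of_mem hx]
      exact Real.rpow_le_rpow (norm_nonneg _) (hKb x) hp1.le
    · rw [indicator_of_notMem hx]; positivity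
  have hg0 : ∀ x, x ∉ B → g x = 0 := fun x hx => indicator_of_notMem hx _
  have h1 := hE g hgm ⟨_, hgb⟩ hg0
  have h2 : Hd ψ A R g (μ.restrict B) = Hd ψ A R g μ := by
    funext ξ
    unfold Hd
    exact setIntegral_eq_integral_of_forall_compl_eq_zero fun x hx => by rw [hg0 x hx]; ring
  have h3 := pair_le hψ hA0 hR (μ.restrict B) hf hf2 hgm hgb
  rw [h2] at h3
  set J : ℝ≥0∞ := ∫⁻ x in B, ‖F x‖ₑ ^ p ∂μ with hJ
  have hen : ∀ x, ENNReal.ofReal (‖F x‖ ^ p) = ‖F x‖ₑ ^ p := by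
    intro x
    rw [← ofReal_norm, ENNReal.ofReal_rpow_of_nonneg (norm_nonneg _) hp0.le]
  have hFi : Integrable (fun x => ‖F x‖ ^ p) (μ.restrict B) := by
    refine Integrable.of_bound (C := K ^ p) (hFm.norm.pow_const _).aestronglyMeasurable
      (Eventually.of_forall fun x => ?_)
    rw [Real.norm_of_nonneg (by positivity)]
    exact Real.rpow_le_rpow (norm_nonneg _) (hKb x) hp0.le
  have hJe : ENNReal.ofReal (∫ x in B, ‖F x‖ ^ p ∂μ) = J := by
    rw [ofReal_integral_eq_lintegral_ofReal hFi (Eventually.of_forall fun x => by positivity)]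
    exact lintegral_congr fun x => hen x
  have hJf : J ≠ ∞ := by rw [← hJe]; exact ENNReal.ofReal_ne_top
  have h4 : ‖∫ x, F x * g x ∂(μ.restrict B)‖ₑ = J := by
    have e1 : ∫ x, F x * g x ∂(μ.restrict B) = ((∫ x in B, ‖F x‖ ^ p ∂μ : ℝ) : ℂ) := by
      rw [← integral_complex_ofReal]
      refine setIntegral_congr_fun hBm fun x hx => ?_
      simp only [hg, gt]
      rw [indicator_of_mem hx, ← mul_assoc, Complex.mul_conj, Complex.normSq_eq_norm_sq,
        ← Complex.ofReal_mul, sq_mul_pow (norm_nonneg _) hp]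
    rw [e1, ← hJe, ← ofReal_norm, Complex.norm_real, Real.norm_of_nonneg
      (integral_nonneg fun x => by positivity)]
  have h5 : ∫⁻ x, ‖g x‖ₑ ^ (p / (p - 1)) ∂μ = J := by
    rw [hJ, ← lintegral_indicator hBm]
    refine lintegral_congr fun x => ?_
    rw [← ofReal_norm, hg, gt_norm F B hp]
    by_cases hx : x ∈ B
    · rw [indicator_of_mem hx, indicator_of_mem hx,
        ENNReal.ofReal_rpow_of_nonneg (by positivity) (by positivity),
        ← Real.rpow_mul (norm_nonneg _), mul_div_cancel₀ _ hp1.ne', hen]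
    · rw [indicator_of_notMem hx, indicator_of_notMem hx, ENNReal.ofReal_zero,
        ENNReal.zero_rpow_of_pos (by positivity)]
  rw [h4] at h3
  rw [h5] at h1
  set N : ℝ≥0∞ := ∫⁻ x, ‖f x‖ₑ ^ (2 : ℝ) with hN
  have h6 : J ≤ (N ^ (1 / 2 : ℝ) * ENNReal.ofReal c ^ (1 / 2 : ℝ)) * J ^ ((p - 1) / p) := by
    refine h3.trans ?_
    rw [mul_assoc]
    gcongr
    refine (ENNReal.rpow_le_rpow h1 (by norm_num)).trans (le_of_eq ?_)
    rw [ENNReal.mul_rpow_of_nonneg _ _ (by norm_num), ← ENNReal.rpow_mul]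
    congr 2
    field_simp
  refine (absorb hJf (by linarith) h6).trans (le_of_eq ?_)
  rw [ENNReal.mul_rpow_of_nonneg _ _ hp0.le, ← ENNReal.rpow_mul, ← ENNReal.rpow_mul,
    ← ENNReal.ofReal_rpow_of_nonneg hc0 (by positivity), mul_comm]
  congr 2 <;> ring

theorem t_gl2 (n : ℕ) (_hn : 2 ≤ n) (h : S_GE n) : S_GL2 n := by
  intro ψ hψ γ K p ε hγ0 hγ1 hK hp hε
  obtain ⟨C, hC, hb⟩ := h ψ hψ γ K p ε hγ0 hγ1 hK hp hε
  refine ⟨C, hC, fun μ hμ hG A hA f hfm hf hf2 => ?_⟩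
  have hA0 : 0 < A := by linarith
  have hfin : ∀ N : ℕ, μ (closedBall (0 : E n) N) < ∞ := fun N => by
    refine lt_of_le_of_lt (measure_mono (closedBall_subset_closedBall
      (le_max_left (N : ℝ) 1))) ?_
    exact (hμ 0 _ (le_max_right (N : ℝ) 1)).trans_lt ENNReal.ofReal_lt_top
  have hU : (⋃ N : ℕ, closedBall (0 : E n) N) = univ := by
    ext x
    simp only [mem_iUnion, mem_closedBall_zero_iff, mem_univ, iff_true]
    exact exists_nat_ge ‖x‖
  have hmono : Monotone fun N : ℕ => closedBall (0 : E n) N := fun a b hab =>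
    closedBall_subset_closedBall (by exact_mod_cast hab)
  rw [← setLIntegral_univ, ← hU, setLIntegral_iUnion_of_directed _
    (hmono.directed_le)]
  refine iSup_le fun N => ?_
  refine l2_core hψ hA0 (R := fun _ => 1) ⟨measurable_const, fun _ => ⟨le_rfl, by norm_num⟩⟩ hp
    (hfin N) (by positivity) (fun g hg hgb hg0 => ?_) hf hf2
  exact hb μ hμ hG A hA g ⟨hg, hgb, N, hg0⟩

theorem near_cst' {C V A ρ : ℝ} (hC : 0 < C) (hV : 0 < V) (hA : 0 < A) (hρ : 0 < ρ) (e p : ℝ)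
    (n : ℕ) : (C * A ^ e) ^ (p / 2) * (V * (2 * ρ) ^ n) ^ (p / 2 - 1) =
      C ^ (p / 2) * (V * 2 ^ n) ^ (p / 2 - 1) * A ^ (e * (p / 2)) *
        ρ ^ (n * (p / 2 - 1)) := by
  rw [Real.mul_rpow (by positivity) (by positivity), mul_pow,
    ← mul_assoc V, Real.mul_rpow (by positivity) (by positivity), Real.rpow_mul hA.le,
    Real.rpow_mul hρ.le (n : ℝ), Real.rpow_natCast]
  ring

theorem t_gn (n : ℕ) (_hn : 2 ≤ n) (h : S_GL2 n) : S_GN n := by
  intro ψ hψ γ K p ε hγ0 hγ1 hK hp hε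
  obtain ⟨C, hC, hE⟩ := h ψ hψ γ K p ε hγ0 hγ1 hK hp hε
  obtain ⟨V, hV, hVb⟩ := ball_vol n
  refine ⟨C ^ (p / 2) * (V * 2 ^ n) ^ (p / 2 - 1), by positivity,
    fun μ hμ hG A hA u ρ hρ f hfm hfs hfp => ?_⟩
  have hA0 : 0 < A := by linarith
  have hp0 : 0 < p := by linarith
  have hρ0 : 0 < ρ := by linarith
  have hBm : MeasurableSet (closedBall u (2 * ρ)) := isClosed_closedBall.measurableSet
  have hfi := int_of_loc hfm hfs p (by linarith) hfp
  have hl2 := loc_norm hfm hBm hfs 2 p two_pos hp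
  have h2p : 0 ≤ 1 - 2 / p := by
    rw [sub_nonneg, div_le_one hp0]; exact hp
  have hl2f : ∫⁻ x, ‖f x‖ₑ ^ (2 : ℝ) ≠ ∞ := by
    refine (hl2.trans_lt ?_).ne
    exact ENNReal.mul_lt_top (ENNReal.rpow_lt_top_of_nonneg h2p measure_closedBall_lt_top.ne)
      (ENNReal.rpow_lt_top_of_nonneg (by positivity) hfp)
  have hf2 := memLp_two hfm hl2f
  have h1 := hE μ hμ hG A hA f hfm hfi hf2
  refine (setLIntegral_le_lintegral _ _).trans (h1.trans ?_)
  rw [hVb u (2 * ρ) (by positivity)] at hl2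
  set e : ℝ := -th n γ p + ε with he
  refine (mul_le_mul' le_rfl (ENNReal.rpow_le_rpow hl2 (show 0 ≤ p / 2 by positivity))).trans
    (le_of_eq ?_)
  rw [ENNReal.mul_rpow_of_nonneg _ _ (by positivity), ← ENNReal.rpow_mul, ← ENNReal.rpow_mul,
    show 2 / p * (p / 2) = 1 by field_simp, ENNReal.rpow_one,
    show (1 - 2 / p) * (p / 2) = p / 2 - 1 by field_simp,
    ENNReal.ofReal_rpow_of_nonneg (by positivity) (by linarith), ← mul_assoc,
    ← ENNReal.ofReal_mul (by positivity)]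
  congr 2
  exact near_cst' hC hV hA0 hρ0 e p n

end Pool.Agent.Y248.FC
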