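import Mathlib
import Pool.Agent.Y248.FC.Fin
import Pool.Agent.Y248.FB.Main
import Pool.Agent.Y350.FC.GE
import Pool.Agent.Y248.FC.L2
import Pool.Agent.Y737.FC.Gs
import Pool.Agent.Y86.FC.An2
import Pool.Agent.Y363.FC.SL
set_option autoImplicit false

/-! # Project FC: the gain principle and cylinders -/

namespace Pool.Agent.Y248.FC

open MeasureTheory Set Metric Complex Filter
open scoped ENNReal RealInnerProductSpace Topology FourierTransform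
open Pool.Agent.H789R2.FR (E sg T)
open Pool.Agent.Y248.FB

/-- the gain principle, `p ≥ 2` -/
theorem gp_big (n : ℕ) (hn : 2 ≤ n) (hSP : S_SP n) (γ K D p δ : ℝ) (hγ0 : 0 ≤ γ) (hγ1 : γ ≤ 1)
    (hK : 0 ≤ K) (hD : 0 < D) (hp : 2 ≤ p) (hδ : 0 ≤ δ)
    (h1 : (((n : ℝ) - 1 + 2 * γ) * (1 / 2 - 1 / p) - γ) / 2 < δ)
    (h2 : (n : ℝ) * (1 / 2 - 1 / p) - 1 / 2 < δ) :
    ∃ C : ℝ, 0 < C ∧ ∀ μ : Measure (E n), DimC n D μ → Gain γ K μ → ∀ f : SchwartzMap (E n) ℂ,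
      ∫⁻ x, ‖Sm δ 1 (fun y => f y) x‖ₑ ^ p ∂μ ≤ ENNReal.ofReal C * ∫⁻ x, ‖f x‖ₑ ^ p := by
  obtain ⟨σ, hσ1, hσ2⟩ := exists_between (max_lt h1 h2)
  have hGN := t_gn n hn (t_gl2 n hn (Pool.Agent.Y350.FC.t_ge n hn hSP))
  exact ug n hn γ K p δ σ D hK hD (by linarith) hδ hσ2
    (pg_big n hGN (Pool.Agent.Y71.FB.t_gl n hn) (Pool.Agent.Y71.FB.t_cr n hn) γ (D⁻¹ * K) p σ
      hγ0 hγ1 (by positivity) hp ((le_max_left _ _).trans_lt hσ1)
      ((le_max_right _ _).trans_lt hσ1))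

/-- the gain principle, `p < 2` -/
theorem gp_small (n : ℕ) (hn : 2 ≤ n) (hSP : S_SP n) (γ K D p δ : ℝ) (hγ0 : 0 ≤ γ) (hγ1 : γ ≤ 1)
    (hK : 0 ≤ K) (hD : 0 < D) (hp1 : 1 < p) (hp2 : p < 2)
    (hp3 : ((n : ℝ) + 1) * (1 / p - 1 / 2) ≤ 1) (hδ : 0 ≤ δ)
    (h1 : (((n : ℝ) - 1) * (1 / p - 1 / 2) - γ) / 2 < δ) :
    ∃ C : ℝ, 0 < C ∧ ∀ μ : Measure (E n), DimC n D μ → Gain γ K μ → ∀ f : SchwartzMap (E n) ℂ,
      ∫⁻ x, ‖Sm δ 1 (fun y => f y) x‖ₑ ^ p ∂μ ≤ ENNReal.ofReal C * ∫⁻ x, ‖f x‖ₑ ^ p := by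
  obtain ⟨σ, hσ1, hσ2⟩ := exists_between h1
  have hGS := Pool.Agent.Y737.FC.t_gs n hn (Pool.Agent.Y350.FC.t_ge n hn hSP)
  exact ug n hn γ K p δ σ D hK hD (by linarith) hδ hσ2
    (pg_small n hGS (Pool.Agent.Y71.FB.t_gl n hn) (Pool.Agent.Y71.FB.t_cr n hn) γ (D⁻¹ * K) p σ
      hγ0 hγ1 (by positivity) hp1 hp2 hp3 hσ1)

/-- the critical index for gain `γ`, in the range of the conjecture -/
noncomputable def ix (n : ℕ) (γ p : ℝ) : ℝ :=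
  (((n : ℝ) - 1) * |1 / 2 - 1 / p| - γ * (1 - 2 * |1 / 2 - 1 / p|)) / 2

/-- the gain principle in the range of the conjecture -/
theorem gp (n : ℕ) (hn : 2 ≤ n) (hSP : S_SP n) (γ K D p δ : ℝ) (hγ0 : 0 ≤ γ) (hγ1 : γ ≤ 1)
    (hK : 0 ≤ K) (hD : 0 < D) (hδ : 0 ≤ δ)
    (hp1 : 2 * (n : ℝ) / ((n : ℝ) + 1) ≤ p) (hp2 : p ≤ 2 * (n : ℝ) / ((n : ℝ) - 1))
    (h : 0 < δ ∨ p < 2 * (n : ℝ) / ((n : ℝ) - 1)) (h1 : ix n γ p < δ) :
    ∃ C : ℝ, 0 < C ∧ ∀ μ : Measure (E n), DimC n D μ → Gain γ K μ → ∀ f : SchwartzMap (E n) ℂ,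
      ∫⁻ x, ‖Sm δ 1 (fun y => f y) x‖ₑ ^ p ∂μ ≤ ENNReal.ofReal C * ∫⁻ x, ‖f x‖ₑ ^ p := by
  have hn3 : (2 : ℝ) ≤ n := by exact_mod_cast hn
  have hp0 : 1 < p := by
    refine lt_of_lt_of_le ?_ hp1
    rw [lt_div_iff₀ (by linarith)]; linarith
  rcases le_or_gt 2 p with h2 | h2
  · have hs : 0 ≤ 1 / 2 - 1 / p := by
      rw [sub_nonneg, one_div_le_one_div (by linarith) two_pos]; exact h2
    have e1 : (n : ℝ) * (1 / 2 - 1 / p) - 1 / 2 = ((n : ℝ) - 1) / 2 - n / p := by ring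
    have e0 : ((n : ℝ) - 1) / 2 - n / p ≤ 0 := by
      rw [sub_nonpos, div_le_div_iff₀ two_pos (by linarith)]
      rw [le_div_iff₀ (by linarith)] at hp2
      linarith
    have e2 : ((n : ℝ) - 1) / 2 - n / p < δ := by
      rcases h with h | h
      · linarith
      · have : ((n : ℝ) - 1) / 2 - n / p < 0 := by
          rw [sub_neg, div_lt_div_iff₀ two_pos (by linarith)]
          rw [lt_div_iff₀ (by linarith)] at h
          linarith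
        linarith
    refine gp_big n hn hSP γ K D p δ hγ0 hγ1 hK hD h2 hδ ?_ (by rw [e1]; exact e2)
    refine lt_of_eq_of_lt ?_ h1
    unfold ix
    rw [abs_of_nonneg hs]
    ring
  · have hs : 0 ≤ 1 / p - 1 / 2 := by
      rw [sub_nonneg, one_div_le_one_div two_pos (by linarith)]; exact h2.le
    have e3 : 1 / p ≤ ((n : ℝ) + 1) / (2 * n) := by
      rw [div_le_div_iff₀ (by linarith) (by linarith)]
      rw [div_le_iff₀ (by linarith)] at hp1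
      linarith
    have e4 : ((n : ℝ) + 1) / (2 * n) = 1 / 2 + 1 / (2 * n) := by
      have : (n : ℝ) ≠ 0 := by linarith
      field_simp
      try ring
    have e5 : 1 / p - 1 / 2 ≤ 1 / (2 * n) := by linarith
    refine gp_small n hn hSP γ K D p δ hγ0 hγ1 hK hD hp0 h2 ?_ hδ ?_
    · calc ((n : ℝ) + 1) * (1 / p - 1 / 2) ≤ ((n : ℝ) + 1) * (1 / (2 * n)) := by gcongr
        _ ≤ 1 := by
          rw [mul_one_div, div_le_one (by linarith)]; linarith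
    · refine lt_of_le_of_lt ?_ h1
      unfold ix
      rw [abs_of_nonpos (by linarith : 1 / 2 - 1 / p ≤ 0)]
      have : 0 ≤ γ * (1 / p - 1 / 2) := by positivity
      linarith

theorem ix_cont (n : ℕ) (p : ℝ) : Continuous fun γ => ix n γ p := by
  unfold ix
  fun_prop

/-- cylinders: output -/
theorem cyl_out (m k : ℕ) (hk : 2 ≤ k) (hSP : S_SP (m + k)) (hCY : S_CY m k) (β K₀ p δ : ℝ)
    (hβ1 : (k : ℝ) / 2 ≤ β) (hβ2 : β < ((k : ℝ) + 1) / 2) (hK : 0 < K₀) (hδ : 0 ≤ δ)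
    (hp1 : 2 * ((m + k : ℕ) : ℝ) / (((m + k : ℕ) : ℝ) + 1) ≤ p)
    (hp2 : p ≤ 2 * ((m + k : ℕ) : ℝ) / (((m + k : ℕ) : ℝ) - 1))
    (h : 0 < δ ∨ p < 2 * ((m + k : ℕ) : ℝ) / (((m + k : ℕ) : ℝ) - 1))
    (h1 : ix (m + k) (((k : ℝ) + 1) / 2 - β) p < δ) :
    ∃ C : ℝ, 0 < C ∧ ∀ ν : Measure (E k),
      (∀ (t : E k) (r : ℝ), 1 ≤ r → ν (closedBall t r) ≤ ENNReal.ofReal (K₀ * r ^ β)) →
      ∀ f : SchwartzMap (E (m + k)) ℂ,
        ∫⁻ x, ‖Sm δ 1 (fun y => f y) x‖ₑ ^ p ∂(cyl m ν) ≤ ENNReal.ofReal C * ∫⁻ x, ‖f x‖ₑ ^ p := by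
  have hk2 : (2 : ℝ) ≤ k := by exact_mod_cast hk
  set γ₀ : ℝ := ((k : ℝ) + 1) / 2 - β with hγ₀
  have hγ00 : 0 < γ₀ := by rw [hγ₀]; linarith
  have hγ01 : γ₀ ≤ 1 / 2 := by rw [hγ₀]; linarith
  obtain ⟨ε, hε, he⟩ : ∃ ε : ℝ, 0 < ε ∧ (ε ≤ γ₀ ∧ ix (m + k) (γ₀ - ε) p < δ) := by
    have hc : Continuous fun ε => ix (m + k) (γ₀ - ε) p :=
      (ix_cont (m + k) p).comp (continuous_const.sub continuous_id)
    have h2 : ∀ᶠ ε in 𝓝 (0 : ℝ), ix (m + k) (γ₀ - ε) p < δ :=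
      hc.continuousAt.eventually (gt_mem_nhds (by simpa using h1))
    obtain ⟨r, hr, hb⟩ := Metric.eventually_nhds_iff.1 h2
    refine ⟨min (r / 2) γ₀, lt_min (by positivity) hγ00, min_le_right _ _, hb ?_⟩
    rw [Real.dist_eq, sub_zero, abs_of_pos (lt_min (by positivity) hγ00)]
    exact (min_le_left _ _).trans_lt (by linarith)
  obtain ⟨K, hKpos, hAnn⟩ := Pool.Agent.Y86.FC.t_an k hk
    (Pool.Agent.Y210.FB.t_kk k hk (Pool.Agent.Y407.FB.t_rad k hk)) β (γ₀ - ε) K₀ hβ1 hβ2.le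
    (by linarith) hK.le
  obtain ⟨⟨D, hD, hDim⟩, -⟩ := hCY
  obtain ⟨C, hC, hb⟩ := gp (m + k) (by omega) hSP (γ₀ - ε) K (D * K₀) p δ (by linarith)
    (by linarith) hKpos.le (by positivity) hδ hp1 hp2 h he.2
  refine ⟨C, hC, fun ν hν f => hb _ ?_ ?_ f⟩
  · intro x r hr
    refine (hDim β K₀ (by linarith) (by linarith) hK.le ν hν x r hr).trans
      (ENNReal.ofReal_le_ofReal ?_)
    refine mul_le_mul_of_nonneg_left ?_ (by positivity)
    refine Real.rpow_le_rpow_of_exponent_le hr ?_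
    push_cast
    linarith
  · refine Pool.Agent.Y363.FC.t_sl m k (γ₀ - ε) K ν (fun t r => ?_) (hAnn ν hν)
    refine (measure_mono (closedBall_subset_closedBall (le_max_left r 1))).trans_lt ?_
    exact (hν t _ (le_max_right r 1)).trans_lt ENNReal.ofReal_lt_top

/-- cylinders: input -/
theorem cyl_in (m k : ℕ) (hk : 2 ≤ k) (hSP : S_SP (m + k)) (hCY : S_CY m k) (β K₀ p δ : ℝ)
    (hβ1 : (k : ℝ) / 2 ≤ β) (hβ2 : β < ((k : ℝ) + 1) / 2) (hK : 0 < K₀) (hδ : 0 ≤ δ)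
    (hp1 : 2 * ((m + k : ℕ) : ℝ) / (((m + k : ℕ) : ℝ) + 1) ≤ p)
    (hp2 : p ≤ 2 * ((m + k : ℕ) : ℝ) / (((m + k : ℕ) : ℝ) - 1))
    (h : 0 < δ ∨ 2 * ((m + k : ℕ) : ℝ) / (((m + k : ℕ) : ℝ) + 1) < p)
    (h1 : ix (m + k) (((k : ℝ) + 1) / 2 - β) p < δ) :
    ∃ C : ℝ, 0 < C ∧ ∀ F : Set (E k), MeasurableSet F →
      (∀ (t : E k) (r : ℝ), 1 ≤ r → volume (F ∩ closedBall t r) ≤ ENNReal.ofReal (K₀ * r ^ β)) →
      ∀ f : SchwartzMap (E (m + k)) ℂ, (∀ x, pr m x ∉ F → f x = 0) →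
        ∫⁻ x, ‖Sm δ 1 (fun y => f y) x‖ₑ ^ p ≤ ENNReal.ofReal C * ∫⁻ x, ‖f x‖ₑ ^ p := by
  set n : ℕ := m + k with hn
  have hn2 : (2 : ℝ) ≤ n := by exact_mod_cast (by omega : 2 ≤ n)
  have hp0 : 1 < p := by
    refine lt_of_lt_of_le ?_ hp1
    rw [lt_div_iff₀ (by linarith)]; linarith
  have hp00 : 0 < p - 1 := by linarith
  set q : ℝ := p / (p - 1) with hq
  have hq1 : 1 < q := by rw [hq, lt_div_iff₀ hp00]; linarith
  have hq0 : 0 < q := by linarith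
  have hqi : 1 / q = 1 - 1 / p := by
    rw [hq]; field_simp
  have hinv : 1 / q + 1 / p = 1 := by linarith
  have hix : ix n (((k : ℝ) + 1) / 2 - β) q = ix n (((k : ℝ) + 1) / 2 - β) p := by
    unfold ix
    have : |1 / 2 - 1 / q| = |1 / 2 - 1 / p| := by
      rw [hqi, ← abs_neg]; congr 1; ring
    rw [this]
  have hq1' : 2 * (n : ℝ) / ((n : ℝ) + 1) ≤ q := by
    have h2 : 1 / q ≤ ((n : ℝ) + 1) / (2 * n) := by
      have h3 : ((n : ℝ) - 1) / (2 * n) ≤ 1 / p := by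
        rw [div_le_div_iff₀ (by linarith) (by linarith)]
        rw [le_div_iff₀ (by linarith)] at hp2
        linarith
      have h4 : ((n : ℝ) + 1) / (2 * n) = 1 - ((n : ℝ) - 1) / (2 * n) := by field_simp; ring
      rw [hqi, h4]; linarith
    rw [div_le_iff₀ (by linarith)]
    rw [div_le_div_iff₀ hq0 (by linarith)] at h2
    linarith
  have h4' : ((n : ℝ) - 1) / (2 * n) = 1 - ((n : ℝ) + 1) / (2 * n) := by field_simp; ring
  have hq2' : q ≤ 2 * (n : ℝ) / ((n : ℝ) - 1) := by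
    have h2 : ((n : ℝ) - 1) / (2 * n) ≤ 1 / q := by
      have h3 : 1 / p ≤ ((n : ℝ) + 1) / (2 * n) := by
        rw [div_le_div_iff₀ (by linarith) (by linarith)]
        rw [div_le_iff₀ (by linarith)] at hp1
        linarith
      rw [hqi, h4']; linarith
    rw [le_div_iff₀ (by linarith)]
    rw [div_le_div_iff₀ (by linarith) hq0] at h2
    linarith
  have hh : 0 < δ ∨ q < 2 * (n : ℝ) / ((n : ℝ) - 1) := by
    rcases h with h | h
    · exact Or.inl h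
    · right
      have h2 : ((n : ℝ) - 1) / (2 * n) < 1 / q := by
        have h3 : 1 / p < ((n : ℝ) + 1) / (2 * n) := by
          rw [div_lt_div_iff₀ (by linarith) (by linarith)]
          rw [div_lt_iff₀ (by linarith)] at h
          linarith
        rw [hqi, h4']; linarith
      rw [lt_div_iff₀ (by linarith)]
      rw [div_lt_div_iff₀ (by linarith) hq0] at h2
      linarith
  obtain ⟨C, hC, hb⟩ := cyl_out m k hk hSP hCY β K₀ q δ hβ1 hβ2 hK hδ hq1' hq2' hh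
    (by rw [hix]; exact h1)
  refine ⟨C ^ (p / q), Real.rpow_pos_of_pos hC _, fun F hF hFd f hf => ?_⟩
  have hpm : Measurable (pr m : E (m + k) → E k) := by
    unfold pr
    exact (continuous_snd.comp
      (EuclideanSpace.finAddEquivProd (𝕜 := ℝ) (n := m) (m := k)).continuous).measurable
  have hGm : MeasurableSet {x : E (m + k) | pr m x ∈ F} := hpm hF
  refine du_core hq1 hinv hδ hC hGm f hf fun h => ?_
  rw [hCY.2 F hF]
  refine hb _ (fun t r hr => ?_) h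
  rw [Measure.restrict_apply isClosed_closedBall.measurableSet, inter_comm]
  exact hFd t r hr

end Pool.Agent.Y248.FC
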